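import Pool.Agent.Helper50.NW.Prec

/-!
# Maximal (boundary) measures: existence

Module M1 of the characterization of `nw(K) = nw(E(K))`.
-/

set_option autoImplicit false

namespace Pool.Agent.Helper50.NW

open Set Filter Topology Cardinal MeasureTheory

universe u

section states

variable {X : Type u} [TopologicalSpace X]

/-- minima of finitely many members of `A` -/
def M1S (A : Submodule ℝ C(X, ℝ)) (f : C(X, ℝ)) : Prop :=
  ∃ (H : Finset C(X, ℝ)) (hH : H.Nonempty), (∀ h ∈ H, h ∈ A) ∧ f = H.inf' hH id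

variable {A : Submodule ℝ C(X, ℝ)}

theorem M1S_base {f : C(X, ℝ)} (hf : f ∈ A) : M1S A f :=
  ⟨{f}, Finset.singleton_nonempty f, by simpa using hf, by simp⟩

theorem M1S_inf {f g : C(X, ℝ)} (hf : M1S A f) (hg : M1S A g) : M1S A (f ⊓ g) := by
  classical
  obtain ⟨H, hH, h1, rfl⟩ := hf
  obtain ⟨H', hH', h1', rfl⟩ := hg
  refine ⟨H ∪ H', hH.mono Finset.subset_union_left, ?_, ?_⟩
  · intro h hh
    rcases Finset.mem_union.1 hh with hh | hh
    · exact h1 h hh
    · exact h1' h hh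
  · rw [Finset.inf'_union hH hH']

theorem M1S_ind {P : C(X, ℝ) → Prop} (hb : ∀ f ∈ A, P f) (hi : ∀ f g, P f → P g → P (f ⊓ g))
    {f : C(X, ℝ)} (hf : M1S A f) : P f := by
  obtain ⟨H, hH, h1, rfl⟩ := hf
  exact Finset.inf'_induction hH id (fun a ha b hb => hi a b ha hb) (fun b hb' => hb b (h1 b hb'))

theorem M1S_add {f g : C(X, ℝ)} (hf : M1S A f) (hg : M1S A g) : M1S A (f + g) := by
  revert hg
  refine M1S_ind (P := fun f => M1S A g → M1S A (f + g)) ?_ ?_ hf
  · intro f hf hg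
    refine M1S_ind (P := fun g => M1S A (f + g)) ?_ ?_ hg
    · intro g hg; exact M1S_base (A.add_mem hf hg)
    · intro g₁ g₂ h1 h2
      have : f + g₁ ⊓ g₂ = (f + g₁) ⊓ (f + g₂) := by
        ext x
        simp [min_add_add_left]
      rw [this]
      exact M1S_inf h1 h2
  · intro f₁ f₂ h1 h2 hg
    have : f₁ ⊓ f₂ + g = (f₁ + g) ⊓ (f₂ + g) := by
      ext x
      simp [min_add_add_right]
    rw [this]
    exact M1S_inf (h1 hg) (h2 hg)

theorem M1S_smul {f : C(X, ℝ)} (hf : M1S A f) {c : ℝ} (hc : 0 ≤ c) : M1S A (c • f) := by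
  refine M1S_ind (P := fun f => M1S A (c • f)) ?_ ?_ hf
  · intro f hf; exact M1S_base (A.smul_mem c hf)
  · intro f g h1 h2
    have : c • (f ⊓ g) = (c • f) ⊓ (c • g) := by
      ext x
      simp [mul_min_of_nonneg _ _ hc]
    rw [this]
    exact M1S_inf h1 h2

/-- states on `C(X)` dominated at `x₀` -/
def M1P (A : Submodule ℝ C(X, ℝ)) (x₀ : X) : Set (C(X, ℝ) → ℝ) :=
  {m | (∀ f g, m (f + g) = m f + m g) ∧ (∀ (c : ℝ) f, m (c • f) = c * m f) ∧
    (∀ f, 0 ≤ f → 0 ≤ m f) ∧ m 1 = 1 ∧ ∀ s, M1S A s → m s ≤ s x₀}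

theorem M1P_eval (A : Submodule ℝ C(X, ℝ)) (x₀ : X) : (fun f : C(X, ℝ) => f x₀) ∈ M1P A x₀ := by
  refine ⟨fun f g => rfl, fun c f => rfl, fun f hf => hf x₀, rfl, fun s _ => le_rfl⟩

theorem M1P_mono {x₀ : X} {m : C(X, ℝ) → ℝ} (hm : m ∈ M1P A x₀) {f g : C(X, ℝ)} (h : f ≤ g) :
    m f ≤ m g := by
  obtain ⟨h1, h2, h3, -⟩ := hm
  have : 0 ≤ m (g - f) := h3 _ (sub_nonneg.2 h)
  have h4 := h1 (g - f) f
  rw [sub_add_cancel] at h4
  linarith

theorem M1P_const {x₀ : X} {m : C(X, ℝ) → ℝ} (hm : m ∈ M1P A x₀) (c : ℝ) :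
    m (c • (1 : C(X, ℝ))) = c := by
  rw [hm.2.1, hm.2.2.2.1, mul_one]

theorem M1P_neg {x₀ : X} {m : C(X, ℝ) → ℝ} (hm : m ∈ M1P A x₀) (f : C(X, ℝ)) :
    m (-f) = -m f := by
  have := hm.2.1 (-1) f
  rw [neg_one_smul] at this
  linarith

theorem M1P_closed (A : Submodule ℝ C(X, ℝ)) (x₀ : X) : IsClosed (M1P A x₀) := by
  have h1 : IsClosed {m : C(X, ℝ) → ℝ | ∀ f g, m (f + g) = m f + m g} := by
    simp only [ofPred_forall]
    exact isClosed_iInter fun f => isClosed_iInter fun g =>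
      isClosed_eq (continuous_apply _) ((continuous_apply f).add (continuous_apply g))
  have h2 : IsClosed {m : C(X, ℝ) → ℝ | ∀ (c : ℝ) f, m (c • f) = c * m f} := by
    simp only [ofPred_forall]
    exact isClosed_iInter fun f => isClosed_iInter fun g =>
      isClosed_eq (continuous_apply _) (continuous_const.mul (continuous_apply _))
  have h3 : IsClosed {m : C(X, ℝ) → ℝ | ∀ f, 0 ≤ f → 0 ≤ m f} := by
    simp only [ofPred_forall]
    exact isClosed_iInter fun f => isClosed_iInter fun _ =>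
      isClosed_le continuous_const (continuous_apply _)
  have h4 : IsClosed {m : C(X, ℝ) → ℝ | m 1 = 1} := isClosed_eq (continuous_apply _) continuous_const
  have h5 : IsClosed {m : C(X, ℝ) → ℝ | ∀ s, M1S A s → m s ≤ s x₀} := by
    simp only [ofPred_forall]
    exact isClosed_iInter fun f => isClosed_iInter fun _ =>
      isClosed_le (continuous_apply _) continuous_const
  exact h1.inter (h2.inter (h3.inter (h4.inter h5)))

variable [CompactSpace X]

theorem M1_norm_le (f : C(X, ℝ)) : f ≤ ‖f‖ • (1 : C(X, ℝ)) ∧ -(‖f‖ • (1 : C(X, ℝ))) ≤ f := by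
  constructor
  · intro x
    have := f.norm_coe_le_norm x
    rw [Real.norm_eq_abs, abs_le] at this
    simpa using this.2
  · intro x
    have := f.norm_coe_le_norm x
    rw [Real.norm_eq_abs, abs_le] at this
    simpa using this.1

theorem M1P_compact (A : Submodule ℝ C(X, ℝ)) (x₀ : X) : IsCompact (M1P A x₀) := by
  have hc : IsCompact (Set.pi univ fun f : C(X, ℝ) => Icc (-‖f‖) ‖f‖) :=
    isCompact_univ_pi fun f => isCompact_Icc
  refine hc.of_isClosed_subset (M1P_closed A x₀) ?_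
  intro m hm f _
  obtain ⟨h1, h2⟩ := M1_norm_le f
  have e1 := M1P_mono hm h1
  have e2 := M1P_mono hm h2
  rw [M1P_neg hm, M1P_const hm] at e2
  rw [M1P_const hm] at e1
  exact ⟨e2, e1⟩

/-- existence of a maximal state -/
theorem M1_exists_max (A : Submodule ℝ C(X, ℝ)) (x₀ : X) :
    ∃ m ∈ M1P A x₀, ∀ m' ∈ M1P A x₀, (∀ s, M1S A s → m' s ≤ m s) → ∀ s, M1S A s → m' s = m s := by
  obtain ⟨m, hm⟩ := exists_maximal_of_chains_bounded
    (r := fun (m m' : M1P A x₀) => ∀ s, M1S A s → m'.1 s ≤ m.1 s) (by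
      intro c hc
      by_cases hne : c.Nonempty
      · have : Nonempty c := hne.to_subtype
        have key : (⋂ a : c, {m' | m' ∈ M1P A x₀ ∧ ∀ s, M1S A s → m' s ≤ a.1.1 s}).Nonempty := by
          have hcl : ∀ a : c, IsClosed {m' | m' ∈ M1P A x₀ ∧ ∀ s, M1S A s → m' s ≤ a.1.1 s} := by
            intro a
            have h5 : IsClosed {m' : C(X, ℝ) → ℝ | ∀ s, M1S A s → m' s ≤ a.1.1 s} := by
              simp only [ofPred_forall]
              exact isClosed_iInter fun f => isClosed_iInter fun _ =>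
                isClosed_le (continuous_apply _) continuous_const
            exact (M1P_closed A x₀).inter h5
          apply IsCompact.nonempty_iInter_of_directed_nonempty_isCompact_isClosed
          · intro a b
            by_cases hab : a.1 = b.1
            · have hab' : a = b := Subtype.ext hab
              subst hab'
              exact ⟨a, subset_rfl, subset_rfl⟩
            · rcases hc a.2 b.2 hab with h | h
              · exact ⟨b, fun m' hm' => ⟨hm'.1, fun s hs => (hm'.2 s hs).trans (h s hs)⟩, subset_rfl⟩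
              · exact ⟨a, subset_rfl, fun m' hm' => ⟨hm'.1, fun s hs => (hm'.2 s hs).trans (h s hs)⟩⟩
          · intro a
            exact ⟨a.1.1, a.1.2, fun s _ => le_rfl⟩
          · intro a
            exact (M1P_compact A x₀).of_isClosed_subset (hcl a) fun m' hm' => hm'.1
          · exact hcl
        obtain ⟨ub, hub⟩ := key
        rw [mem_iInter] at hub
        obtain ⟨a₀, ha₀⟩ := hne
        exact ⟨⟨ub, (hub ⟨a₀, ha₀⟩).1⟩, fun a ha s hs => (hub ⟨a, ha⟩).2 s hs⟩
      · rw [not_nonempty_iff_eq_empty] at hne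
        subst hne
        exact ⟨⟨_, M1P_eval A x₀⟩, fun a ha => absurd ha (notMem_empty a)⟩)
    (fun {a b c} h1 h2 s hs => (h2 s hs).trans (h1 s hs))
  refine ⟨m.1, m.2, fun m' hm' h s hs => le_antisymm (h s hs) (hm ⟨m', hm'⟩ h s hs)⟩

/-- the upper envelope functional -/
noncomputable def M1p (A : Submodule ℝ C(X, ℝ)) (m : C(X, ℝ) → ℝ) (φ : C(X, ℝ)) : ℝ :=
  sInf {r | ∃ s, M1S A s ∧ φ ≤ s ∧ r = m s}

section env

variable {x₀ : X} {m : C(X, ℝ) → ℝ} (h1 : (1 : C(X, ℝ)) ∈ A) (hm : m ∈ M1P A x₀)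

include hm in
theorem M1p_bdd (φ : C(X, ℝ)) : BddBelow {r | ∃ s, M1S A s ∧ φ ≤ s ∧ r = m s} :=
  ⟨m φ, by rintro _ ⟨s, -, hs, rfl⟩; exact M1P_mono hm hs⟩

include h1 in
theorem M1p_ne (φ : C(X, ℝ)) : {r | ∃ s, M1S A s ∧ φ ≤ s ∧ r = m s}.Nonempty :=
  ⟨_, ‖φ‖ • (1 : C(X, ℝ)), M1S_base (A.smul_mem _ h1), (M1_norm_le φ).1, rfl⟩

include hm in
theorem M1p_le {φ s : C(X, ℝ)} (hs : M1S A s) (h : φ ≤ s) : M1p A m φ ≤ m s :=
  csInf_le (M1p_bdd hm φ) ⟨s, hs, h, rfl⟩

include h1 hm in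
theorem M1p_ge (φ : C(X, ℝ)) : m φ ≤ M1p A m φ :=
  le_csInf (M1p_ne h1 φ) (by rintro _ ⟨s, -, hs, rfl⟩; exact M1P_mono hm hs)

include h1 in
theorem M1p_near (φ : C(X, ℝ)) {ε : ℝ} (hε : 0 < ε) : ∃ s, M1S A s ∧ φ ≤ s ∧ m s < M1p A m φ + ε := by
  obtain ⟨_, ⟨s, hs, hφ, rfl⟩, hlt⟩ := exists_lt_of_csInf_lt (M1p_ne (m := m) h1 φ)
    (lt_add_of_pos_right (M1p A m φ) hε)
  exact ⟨s, hs, hφ, hlt⟩

include h1 hm in
theorem M1p_add (φ ψ : C(X, ℝ)) : M1p A m (φ + ψ) ≤ M1p A m φ + M1p A m ψ := by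
  refine le_of_forall_pos_le_add fun ε hε => ?_
  obtain ⟨s, hs, h2, h3⟩ := M1p_near (m := m) h1 φ (half_pos hε)
  obtain ⟨t, ht, h4, h5⟩ := M1p_near (m := m) h1 ψ (half_pos hε)
  have := M1p_le hm (M1S_add hs ht) (add_le_add h2 h4)
  rw [hm.1] at this
  linarith

include h1 hm in
theorem M1p_smul_le (φ : C(X, ℝ)) {c : ℝ} (hc : 0 < c) : M1p A m (c • φ) ≤ c * M1p A m φ := by
  refine le_of_forall_pos_le_add fun ε hε => ?_
  obtain ⟨s, hs, h2, h3⟩ := M1p_near (m := m) h1 φ (div_pos hε hc)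
  have h4 : c • φ ≤ c • s := by
    intro x
    simpa using mul_le_mul_of_nonneg_left (h2 x) hc.le
  have := M1p_le hm (M1S_smul hs hc.le) h4
  rw [hm.2.1] at this
  have h5 : c * m s ≤ c * (M1p A m φ + ε / c) := mul_le_mul_of_nonneg_left h3.le hc.le
  have h6 : c * (M1p A m φ + ε / c) = c * M1p A m φ + ε := by field_simp
  linarith

include h1 hm in
theorem M1p_smul (φ : C(X, ℝ)) {c : ℝ} (hc : 0 < c) : M1p A m (c • φ) = c * M1p A m φ := by
  refine le_antisymm (M1p_smul_le h1 hm φ hc) ?_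
  have := M1p_smul_le h1 hm (c • φ) (inv_pos.2 hc)
  rw [smul_smul, inv_mul_cancel₀ hc.ne', one_smul] at this
  have h2 := mul_le_mul_of_nonneg_left this hc.le
  rwa [← mul_assoc, mul_inv_cancel₀ hc.ne', one_mul] at h2

include h1 hm in
/-- Hahn-Banach step -/
theorem M1_hb (ψ : C(X, ℝ)) :
    ∃ m' : C(X, ℝ) →ₗ[ℝ] ℝ, (∀ φ, m' φ ≤ M1p A m φ) ∧ m' ψ = M1p A m ψ := by
  have h0 : M1p A m 0 = 0 := by
    refine le_antisymm ?_ ?_
    · have := M1p_le hm (M1S_base (A := A) A.zero_mem) le_rfl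
      have h2 := hm.2.1 0 0
      rw [zero_smul, zero_mul] at h2
      rwa [h2] at this
    · have := M1p_ge h1 hm 0
      have h2 := hm.2.1 0 0
      rw [zero_smul, zero_mul] at h2
      rwa [h2] at this
  have key : ∀ c : ℝ, c * M1p A m ψ ≤ M1p A m (c • ψ) := by
    intro c
    rcases lt_trichotomy c 0 with hc | hc | hc
    · have e1 := M1p_smul h1 hm ψ (neg_pos.2 hc)
      have e2 := M1p_add h1 hm (c • ψ) (-c • ψ)
      rw [← add_smul, add_neg_cancel, zero_smul, h0, e1] at e2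
      linarith
    · rw [hc, zero_mul, zero_smul, h0]
    · rw [M1p_smul h1 hm ψ hc]
  have H : ∀ c : ℝ, c • ψ = 0 → (RingHom.id ℝ) c • M1p A m ψ = 0 := by
    intro c hc
    rcases smul_eq_zero.1 hc with h | h
    · rw [h]; simp
    · rw [h, h0]; simp
  obtain ⟨m', hm1, hm2⟩ := exists_extension_of_le_sublinear
    (LinearPMap.mkSpanSingleton' ψ (M1p A m ψ) H) (M1p A m)
    (fun c hc x => M1p_smul h1 hm x hc) (M1p_add h1 hm) (by
      rintro ⟨x, hx⟩
      obtain ⟨c, rfl⟩ := Submodule.mem_span_singleton.1 hx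
      rw [LinearPMap.mkSpanSingleton'_apply]
      exact key c)
  refine ⟨m', hm2, ?_⟩
  have := hm1 ⟨ψ, Submodule.mem_span_singleton_self ψ⟩
  rw [this]
  exact LinearPMap.mkSpanSingleton'_apply_self _ _ _ _

end env

/-- squares of members of `A` are uniform limits of maxima of members of `A` -/
theorem M1_tangent (x₀ : X) (h1 : (1 : C(X, ℝ)) ∈ A) {g : C(X, ℝ)} (hg : g ∈ A) {ε : ℝ} (hε : 0 < ε) :
    ∃ s, M1S A s ∧ -s ≤ g ^ 2 ∧ g ^ 2 ≤ -s + ε • (1 : C(X, ℝ)) := by
  obtain ⟨T, hT⟩ := CompactSpace.elim_nhds_subcover (fun x : X => {y | (g y - g x) ^ 2 < ε}) (by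
    intro x
    apply IsOpen.mem_nhds
    · exact isOpen_lt (by fun_prop) continuous_const
    · simpa using hε)
  have hTne : T.Nonempty := by
    rw [Finset.nonempty_iff_ne_empty]
    rintro rfl
    have : x₀ ∈ (⊤ : Set X) := mem_univ x₀
    rw [← hT] at this
    simp at this
  let h : X → C(X, ℝ) := fun x => (-(2 * g x)) • g + (g x ^ 2) • (1 : C(X, ℝ))
  have hh : ∀ x y, h x y = (g y - g x) ^ 2 - g y ^ 2 := by
    intro x y
    simp only [h, ContinuousMap.add_apply, ContinuousMap.smul_apply, smul_eq_mul,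
      ContinuousMap.one_apply]
    ring
  refine ⟨T.inf' hTne h, ?_, ?_, ?_⟩
  · exact Finset.inf'_induction hTne h (fun a ha b hb => M1S_inf ha hb)
      (fun b _ => M1S_base (A.add_mem (A.smul_mem _ hg) (A.smul_mem _ h1)))
  · rw [neg_le]
    refine Finset.le_inf' hTne h fun x _ => ?_
    intro y
    change (-g ^ 2 : C(X, ℝ)) y ≤ h x y
    simp only [ContinuousMap.neg_apply, ContinuousMap.pow_apply]
    rw [hh]
    nlinarith [sq_nonneg (g y - g x)]
  · intro y
    have hy : y ∈ (⊤ : Set X) := mem_univ y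
    rw [← hT] at hy
    simp only [mem_iUnion] at hy
    obtain ⟨x, hx, hxy⟩ := hy
    have h2 : (T.inf' hTne h) y ≤ h x y := (Finset.inf'_le h hx : T.inf' hTne h ≤ h x) y
    have hxy' : (g y - g x) ^ 2 < ε := hxy
    change (g ^ 2 : C(X, ℝ)) y ≤ (-(T.inf' hTne h) + ε • (1 : C(X, ℝ))) y
    simp only [ContinuousMap.add_apply, ContinuousMap.neg_apply, ContinuousMap.pow_apply,
      ContinuousMap.smul_apply, ContinuousMap.one_apply, smul_eq_mul, mul_one]
    rw [hh] at h2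
    linarith

theorem M1_main (h1 : (1 : C(X, ℝ)) ∈ A) (x₀ : X) :
    ∃ m ∈ M1P A x₀, (∀ g ∈ A, m g = g x₀) ∧ ∀ g ∈ A, ∀ ε : ℝ, 0 < ε →
      ∃ (H : Finset C(X, ℝ)) (hH : H.Nonempty),
        (∀ h ∈ H, h ∈ A ∧ ∀ x, g x ^ 2 ≤ h x) ∧ m (H.inf' hH id) ≤ m (g ^ 2) + ε := by
  obtain ⟨m, hm, hmax⟩ := M1_exists_max A x₀
  refine ⟨m, hm, ?_, ?_⟩
  · intro g hg
    have e1 := hm.2.2.2.2 g (M1S_base hg)
    have e2 := hm.2.2.2.2 (-g) (M1S_base (A.neg_mem hg))
    rw [M1P_neg hm] at e2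
    simp only [ContinuousMap.neg_apply] at e2
    linarith
  · intro g hg ε hε
    obtain ⟨m', hm1, hm2⟩ := M1_hb h1 hm (g ^ 2)
    have hle : ∀ s, M1S A s → m' s ≤ m s := fun s hs => (hm1 s).trans (M1p_le hm hs le_rfl)
    have hm0 : m 0 = 0 := by
      have := hm.2.1 0 0
      rwa [zero_smul, zero_mul] at this
    have hm'P : (fun f => m' f) ∈ M1P A x₀ := by
      refine ⟨fun f g => map_add m' f g, fun c f => (map_smul m' c f).trans (smul_eq_mul _ _), ?_, ?_,
        fun s hs => (hle s hs).trans (hm.2.2.2.2 s hs)⟩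
      · intro f hf
        have := (hm1 (-f)).trans (M1p_le hm (M1S_base A.zero_mem) (neg_nonpos.2 hf))
        rw [map_neg, hm0] at this
        linarith
      · have e1 := hle 1 (M1S_base h1)
        have e2 := hle (-1) (M1S_base (A.neg_mem h1))
        rw [M1P_neg hm, hm.2.2.2.1, map_neg] at e2
        rw [hm.2.2.2.1] at e1
        show m' 1 = 1
        linarith
    have heq := hmax _ hm'P hle
    have hp : M1p A m (g ^ 2) ≤ m (g ^ 2) := by
      rw [← hm2]
      refine le_of_forall_pos_le_add fun δ hδ => ?_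
      obtain ⟨s, hs, h3, h4⟩ := M1_tangent x₀ h1 hg hδ
      have e1 := M1P_mono hm h3
      have e2 := M1P_mono hm'P h4
      simp only [map_add, map_neg] at e2
      have e3 : m' (δ • (1 : C(X, ℝ))) = δ := M1P_const hm'P δ
      rw [e3] at e2
      rw [M1P_neg hm] at e1
      have e4 : m' s = m s := heq s hs
      linarith
    obtain ⟨s, ⟨H, hH, hHA, rfl⟩, h3, h4⟩ := M1p_near (m := m) h1 (g ^ 2) hε
    refine ⟨H, hH, ?_, by linarith⟩
    intro h hh
    refine ⟨hHA h hh, fun x => ?_⟩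
    have h5 : H.inf' hH id ≤ h := Finset.inf'_le id hh
    have h6 := (h3.trans h5) x
    simpa using h6

end states

variable {E : Type u} [AddCommGroup E] [Module ℝ E] [TopologicalSpace E]
  [IsTopologicalAddGroup E] [ContinuousSMul ℝ E] [LocallyConvexSpace ℝ E] [T2Space E]

/-- continuous affine functions as a submodule -/
def affSub (K : Set E) : Submodule ℝ C(K, ℝ) where
  carrier := affSet K
  add_mem' := by
    intro g h hg hh x y z a b ha hb hab hz
    simp only [ContinuousMap.add_apply]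
    rw [hg x y z a b ha hb hab hz, hh x y z a b ha hb hab hz]
    ring
  zero_mem' := by
    intro x y z a b ha hb hab hz
    simp
  smul_mem' := by
    intro c g hg x y z a b ha hb hab hz
    simp only [ContinuousMap.smul_apply, smul_eq_mul]
    rw [hg x y z a b ha hb hab hz]
    ring

/-- M1: boundary (maximal) measures. -/
theorem exists_boundary_measure {K : Set E} (hK : IsCompact K) (x₀ : K) :
    ∃ μ : @Measure K (borel K), @IsProbabilityMeasure K (borel K) μ ∧
      @Measure.Regular K (borel K) _ μ ∧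
      (∀ g : C(K, ℝ), g ∈ affSet K → @integral K ℝ _ _ (borel K) μ (fun x => g x) = g x₀) ∧
      ∀ g : C(K, ℝ), g ∈ affSet K → ∀ ε : ℝ, 0 < ε →
        ∃ (H : Finset C(K, ℝ)) (hH : H.Nonempty),
          (∀ h ∈ H, h ∈ affSet K ∧ ∀ x, g x ^ 2 ≤ h x) ∧
          @integral K ℝ _ _ (borel K) μ (fun x => H.inf' hH (fun h => h x)) ≤
            @integral K ℝ _ _ (borel K) μ (fun x => g x ^ 2) + ε := by
  letI : MeasurableSpace K := borel K
  have : BorelSpace K := ⟨rfl⟩
  have : CompactSpace K := isCompact_iff_compactSpace.1 hK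
  have hone : (1 : C(K, ℝ)) ∈ affSub K := by
    intro x y z a b ha hb hab hz
    simp [hab]
  obtain ⟨m, hm, h1, h2⟩ := M1_main (A := affSub K) hone x₀
  let toC : CompactlySupportedContinuousMap K ℝ → C(K, ℝ) := fun f => f.toContinuousMap
  let Λ : CompactlySupportedContinuousMap K ℝ →ₚ[ℝ] ℝ :=
  { toFun := fun f => m f.toContinuousMap
    map_add' := fun f g => hm.1 _ _
    map_smul' := fun c f => hm.2.1 c _
    monotone' := fun f g hfg => M1P_mono hm hfg }
  have hint : ∀ g : C(K, ℝ), ∫ x, g x ∂(RealRMK.rieszMeasure Λ) = m g := by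
    intro g
    let g' : CompactlySupportedContinuousMap K ℝ :=
      { toFun := g
        hasCompactSupport' := HasCompactSupport.of_compactSpace _ }
    have := RealRMK.integral_rieszMeasure Λ g'
    exact this
  refine ⟨RealRMK.rieszMeasure Λ, ?_, inferInstance, ?_, ?_⟩
  · have h3 := hint 1
    rw [hm.2.2.2.1] at h3
    simp only [ContinuousMap.one_apply, integral_const, smul_eq_mul, mul_one] at h3
    constructor
    rw [← ENNReal.toReal_eq_one_iff]
    exact h3
  · intro g hg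
    rw [hint g]
    exact h1 g hg
  · intro g hg ε hε
    obtain ⟨H, hH, h3, h4⟩ := h2 g hg ε hε
    refine ⟨H, hH, h3, ?_⟩
    have e1 := hint (H.inf' hH id)
    have e2 := hint (g ^ 2)
    simp only [ContinuousMap.pow_apply] at e2
    simp only [ContinuousMap.inf'_apply, id] at e1
    rw [e1, e2]
    exact h4

end Pool.Agent.Helper50.NW
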